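import Mathlib

set_option autoImplicit false

namespace Pool.Agent.H98R3.AA

open Finset

/-- one-sided shift -/
def T (x : ℕ → Bool) : ℕ → Bool := fun n => x (n + 1)

lemma T_iter (n : ℕ) (x : ℕ → Bool) (k : ℕ) : T^[n] x k = x (n + k) := by
  induction n generalizing x with
  | zero => simp
  | succ n ih =>
    rw [Function.iterate_succ_apply, ih]
    simp only [T]
    congr 1
    ring

/-- `i < j` are consecutive ones of `x` with an odd number of zeros between them -/
def good (x : ℕ → Bool) (i j : ℕ) : Prop :=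
  i < j ∧ x i = true ∧ x j = true ∧ (∀ l, i < l → l < j → x l = false) ∧ (j - i) % 2 = 0

open Classical in
/-- indicator of `good` -/
noncomputable def g (x : ℕ → Bool) (i j : ℕ) : ℝ := if good x i j then 1 else 0

lemma g_nonneg (x : ℕ → Bool) (i j : ℕ) : 0 ≤ g x i j := by
  unfold g; split_ifs <;> norm_num

/-- the almost additive sequence -/
noncomputable def f (n : ℕ) (x : ℕ → Bool) : ℝ := ∑ j ∈ range n, ∑ i ∈ range n, g x i j

/-- the crossing term -/
noncomputable def cr (n m : ℕ) (x : ℕ → Bool) : ℝ :=
  ∑ j ∈ range m, ∑ i ∈ range n, g x i (n + j)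

lemma good_congr {x y : ℕ → Bool} {n : ℕ} (h : ∀ k < n, x k = y k) {i j : ℕ} (hj : j < n) :
    good x i j ↔ good y i j := by
  unfold good
  constructor
  · rintro ⟨h1, h2, h3, h4, h5⟩
    refine ⟨h1, ?_, ?_, ?_, h5⟩
    · rw [← h i (h1.trans hj)]; exact h2
    · rw [← h j hj]; exact h3
    · intro l hl1 hl2; rw [← h l (hl2.trans hj)]; exact h4 l hl1 hl2
  · rintro ⟨h1, h2, h3, h4, h5⟩
    refine ⟨h1, ?_, ?_, ?_, h5⟩
    · rw [h i (h1.trans hj)]; exact h2
    · rw [h j hj]; exact h3
    · intro l hl1 hl2; rw [h l (hl2.trans hj)]; exact h4 l hl1 hl2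

lemma f_congr {x y : ℕ → Bool} {n : ℕ} (h : ∀ k < n, x k = y k) : f n x = f n y := by
  unfold f
  refine sum_congr rfl (fun j hj => sum_congr rfl (fun i _ => ?_))
  unfold g
  classical exact if_congr (good_congr h (mem_range.1 hj)) rfl rfl

lemma good_shift (x : ℕ → Bool) (n i j : ℕ) : good x (n + i) (n + j) ↔ good (T^[n] x) i j := by
  unfold good
  simp only [T_iter]
  constructor
  · rintro ⟨h1, h2, h3, h4, h5⟩
    refine ⟨by omega, h2, h3, fun l hl1 hl2 => h4 _ (by omega) (by omega), by omega⟩
  · rintro ⟨h1, h2, h3, h4, h5⟩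
    refine ⟨by omega, h2, h3, fun l hl1 hl2 => ?_, by omega⟩
    have := h4 (l - n) (by omega) (by omega)
    rwa [show n + (l - n) = l by omega] at this

lemma g_shift (x : ℕ → Bool) (n i j : ℕ) : g x (n + i) (n + j) = g (T^[n] x) i j := by
  unfold g
  classical exact if_congr (good_shift x n i j) rfl rfl

lemma g_zero_of_le (x : ℕ → Bool) {i j : ℕ} (h : j ≤ i) : g x i j = 0 := by
  unfold g
  rw [if_neg]
  rintro ⟨h1, _⟩
  omega

lemma f_add (n m : ℕ) (x : ℕ → Bool) : f (n + m) x = f n x + f m (T^[n] x) + cr n m x := by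
  unfold f cr
  rw [sum_range_add]
  simp only [sum_range_add, sum_add_distrib, g_shift]
  have : ∑ j ∈ range n, ∑ i ∈ range m, g x (n + i) j = 0 := by
    refine sum_eq_zero (fun j hj => sum_eq_zero (fun i _ => g_zero_of_le x ?_))
    have := mem_range.1 hj
    omega
  rw [this]
  ring

lemma cr_nonneg (n m : ℕ) (x : ℕ → Bool) : 0 ≤ cr n m x :=
  sum_nonneg (fun _ _ => sum_nonneg (fun _ _ => g_nonneg _ _ _))

lemma good_unique {x : ℕ → Bool} {n i j i' j' : ℕ} (h : good x i j) (h' : good x i' j')
    (hi : i < n) (hj : n ≤ j) (hi' : i' < n) (hj' : n ≤ j') : i = i' ∧ j = j' := by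
  obtain ⟨h1, h2, h3, h4, h5⟩ := h
  obtain ⟨h1', h2', h3', h4', h5'⟩ := h'
  constructor
  · rcases lt_trichotomy i i' with hlt | heq | hgt
    · have := h4 i' hlt (by omega)
      rw [h2'] at this; exact absurd this (by simp)
    · exact heq
    · have := h4' i hgt (by omega)
      rw [h2] at this; exact absurd this (by simp)
  · rcases lt_trichotomy j j' with hlt | heq | hgt
    · have := h4' j (by omega) hlt
      rw [h3] at this; exact absurd this (by simp)
    · exact heq
    · have := h4 j' (by omega) hgt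
      rw [h3'] at this; exact absurd this (by simp)

lemma cr_le_one (n m : ℕ) (x : ℕ → Bool) : cr n m x ≤ 1 := by
  classical
  unfold cr
  rw [← sum_product' (s := range m) (t := range n) (f := fun j i => g x i (n + j))]
  by_cases hex : ∃ p ∈ range m ×ˢ range n, good x p.2 (n + p.1)
  · obtain ⟨p, hp, hgood⟩ := hex
    rw [sum_eq_single_of_mem p hp]
    · unfold g; split_ifs <;> norm_num
    · intro q hq hne
      unfold g
      rw [if_neg]
      intro hgq
      apply hne
      rw [mem_product, mem_range, mem_range] at hp hq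
      have := good_unique (n := n) hgq hgood hq.2 (by omega) hp.2 (by omega)
      ext
      · have := this.2; omega
      · exact this.1
  · rw [sum_eq_zero]
    · norm_num
    · intro q hq
      unfold g
      rw [if_neg]
      intro hgq
      exact hex ⟨q, hq, hgq⟩

lemma almost_additive (n m : ℕ) (x : ℕ → Bool) :
    |f (n + m) x - f n x - f m (T^[n] x)| ≤ 1 := by
  rw [f_add]
  rw [show f n x + f m (T^[n] x) + cr n m x - f n x - f m (T^[n] x) = cr n m x by ring]
  rw [abs_of_nonneg (cr_nonneg _ _ _)]
  exact cr_le_one _ _ _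

lemma T_cont : Continuous T := by
  unfold T
  fun_prop

lemma f_cont (n : ℕ) : Continuous (f n) := by
  have h : f n = (fun y : Fin n → Bool => f n (fun k => if hk : k < n then y ⟨k, hk⟩ else false)) ∘
      (fun (x : ℕ → Bool) (k : Fin n) => x k) := by
    funext x
    simp only [Function.comp]
    apply f_congr
    intro k hk
    simp [hk]
  rw [h]
  exact (continuous_of_discreteTopology).comp (by fun_prop)

/-! ### words -/

/-- put a word in front of a point -/
def app (u : List Bool) (z : ℕ → Bool) : ℕ → Bool :=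
  fun n => if h : n < u.length then u[n] else z (n - u.length)

lemma app_nil (z : ℕ → Bool) : app [] z = z := by
  funext n; simp [app]

lemma app_lt (u : List Bool) (z : ℕ → Bool) {n : ℕ} (h : n < u.length) : app u z n = u[n] := by
  simp [app, h]

lemma app_ge (u : List Bool) (z : ℕ → Bool) (n : ℕ) : app u z (u.length + n) = z n := by
  simp [app]

lemma app_append (u v : List Bool) (z : ℕ → Bool) : app (u ++ v) z = app u (app v z) := by
  funext n
  unfold app
  simp only [List.length_append]
  split_ifs with h1 h2 h3 h4 h5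
  · simp [List.getElem_append, h2]
  · simp [List.getElem_append, h2]
  · omega
  · omega
  · omega
  · congr 1; omega

lemma T_iter_app (u : List Bool) (z : ℕ → Bool) : T^[u.length] (app u z) = z := by
  funext n
  rw [T_iter, app_ge]

/-- Birkhoff sums -/
noncomputable def S (φ : (ℕ → Bool) → ℝ) (n : ℕ) (x : ℕ → Bool) : ℝ := ∑ k ∈ range n, φ (T^[k] x)

lemma S_add (φ : (ℕ → Bool) → ℝ) (n m : ℕ) (x : ℕ → Bool) :
    S φ (n + m) x = S φ n x + S φ m (T^[n] x) := by
  unfold S
  rw [sum_range_add]
  congr 1
  refine sum_congr rfl (fun k _ => ?_)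
  rw [← Function.iterate_add_apply, add_comm]

lemma S_append (φ : (ℕ → Bool) → ℝ) (u v : List Bool) (z : ℕ → Bool) :
    S φ (u ++ v).length (app (u ++ v) z) = S φ u.length (app u (app v z)) + S φ v.length (app v z) := by
  rw [List.length_append, S_add, app_append, T_iter_app]

/-- zero block followed by a one -/
def blk (K : ℕ) : List Bool := List.replicate K false ++ [true]

lemma blk_length (K : ℕ) : (blk K).length = K + 1 := by simp [blk]

lemma blk_succ (K : ℕ) : blk (K + 1) = [false] ++ blk K := by
  simp [blk, List.replicate_succ]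

lemma app_blk_lt (K : ℕ) (z : ℕ → Bool) {n : ℕ} (h : n < K) : app (blk K) z n = false := by
  rw [app_lt _ _ (by rw [blk_length]; omega)]
  simp [blk, List.getElem_append, h]

lemma app_blk_eq (K : ℕ) (z : ℕ → Bool) : app (blk K) z K = true := by
  rw [app_lt _ _ (by rw [blk_length]; omega)]
  simp [blk]


/-- value of `f` on a block `0^K 1` is zero -/
lemma f_blk (K : ℕ) (z : ℕ → Bool) : f (K + 1) (app (blk K) z) = 0 := by
  unfold f
  refine sum_eq_zero (fun j hj => sum_eq_zero (fun i _ => ?_))
  unfold g
  rw [if_neg]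
  rintro ⟨h1, h2, _⟩
  have := mem_range.1 hj
  rw [app_blk_lt K z (by omega)] at h2
  exact absurd h2 (by simp)

/-- crossing term at a word ending with a one, followed by `0^K 1` -/
lemma cr_blk (u : List Bool) (K : ℕ) (z : ℕ → Bool)
    (hpos : 0 < u.length) (hu : ∀ z', app u z' (u.length - 1) = true) :
    cr u.length (K + 1) (app u (app (blk K) z)) = if K % 2 = 1 then 1 else 0 := by
  classical
  unfold cr
  rw [sum_eq_single_of_mem K (by simp)]
  · rw [sum_eq_single_of_mem (u.length - 1) (by simp; omega)]
    · unfold g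
      refine if_congr ?_ rfl rfl
      constructor
      · rintro ⟨_, _, _, _, h5⟩
        omega
      · intro hK
        refine ⟨by omega, hu _, ?_, ?_, by omega⟩
        · rw [app_ge, app_blk_eq]
        · intro l hl1 hl2
          obtain ⟨l', rfl⟩ : ∃ l', l = u.length + l' := ⟨l - u.length, by omega⟩
          rw [app_ge, app_blk_lt _ _ (by omega)]
    · intro i hi hne
      unfold g
      rw [if_neg]
      rintro ⟨h1, h2, h3, h4, h5⟩
      have := h4 (u.length - 1) (by have := mem_range.1 hi; omega) (by omega)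
      rw [hu] at this
      exact absurd this (by simp)
  · intro j hj hne
    refine sum_eq_zero (fun i _ => ?_)
    unfold g
    rw [if_neg]
    rintro ⟨h1, h2, h3, h4, h5⟩
    rw [app_ge, app_blk_lt _ _ (by have := mem_range.1 hj; omega)] at h3
    exact absurd h3 (by simp)

lemma f_append_blk (u : List Bool) (K : ℕ) (z : ℕ → Bool)
    (hpos : 0 < u.length) (hu : ∀ z', app u z' (u.length - 1) = true) :
    f (u ++ blk K).length (app (u ++ blk K) z) =
      f u.length (app u (app (blk K) z)) + if K % 2 = 1 then 1 else 0 := by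
  rw [List.length_append, blk_length, f_add, app_append, T_iter_app, f_blk, cr_blk u K z hpos hu]
  ring

lemma append_blk_last (u : List Bool) (K : ℕ) (z : ℕ → Bool) :
    app (u ++ blk K) z ((u ++ blk K).length - 1) = true := by
  rw [app_append, List.length_append, blk_length, show u.length + (K + 1) - 1 = u.length + K by omega,
    app_ge, app_blk_eq]

lemma T_iter_app_lt (u : List Bool) (K : ℕ) (z z' : ℕ → Bool) (h : ∀ k < K, z k = z' k)
    (j : ℕ) (hj : j ≤ u.length) : ∀ k < K, T^[j] (app u z) k = T^[j] (app u z') k := by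
  intro k hk
  rw [T_iter, T_iter]
  unfold app
  split_ifs with h1
  · rfl
  · exact h _ (by omega)

/-- the key inductive construction -/
lemma key (φ : (ℕ → Bool) → ℝ) (h0 : φ (fun _ => false) = 0)
    (huc : ∀ ε : ℝ, 0 < ε → ∃ N : ℕ, ∀ x y : ℕ → Bool, (∀ k < N, x k = y k) → |φ x - φ y| ≤ ε)
    (I : ℕ) : ∃ u u' : List Bool, 0 < u.length ∧ 0 < u'.length ∧
      (∀ z, app u z (u.length - 1) = true) ∧ (∀ z, app u' z (u'.length - 1) = true) ∧
      (∀ z, f u'.length (app u' z) = f u.length (app u z) + I) ∧
      (∀ z, |S φ u'.length (app u' z) - S φ u.length (app u z)| ≤ 1 - (1 / 2) ^ I) := by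
  induction I with
  | zero =>
    refine ⟨[true], [true], by simp, by simp, ?_, ?_, ?_, ?_⟩
    · intro z; simp [app]
    · intro z; simp [app]
    · intro z; simp
    · intro z; simp
  | succ I ih =>
    obtain ⟨u, u', hu1, hu1', hu2, hu2', hf, hS⟩ := ih
    obtain ⟨N, hN⟩ := huc ((1 / 2) ^ (I + 1) / (u'.length + 1)) (by positivity)
    -- even block length `K = 2 N`
    set K := 2 * N with hK
    have hA : ∀ z, |S φ u'.length (app u' (app (blk (K + 1)) z)) -
        S φ u'.length (app u' (app (blk K) z))| ≤ u'.length * ((1 / 2) ^ (I + 1) / (u'.length + 1)) := by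
      intro z
      unfold S
      rw [← sum_sub_distrib]
      refine (abs_sum_le_sum_abs _ _).trans ?_
      have h1 : ∀ j ∈ range u'.length, |φ (T^[j] (app u' (app (blk (K + 1)) z))) -
          φ (T^[j] (app u' (app (blk K) z)))| ≤ (1 / 2) ^ (I + 1) / (u'.length + 1) := by
        intro j hj
        exact hN _ _ (fun k hk => T_iter_app_lt u' K _ _ (fun k hk => by
          rw [app_blk_lt _ _ (by omega), app_blk_lt _ _ (by omega)]) j (mem_range.1 hj).le k
            (by omega))
      refine (sum_le_card_nsmul _ _ _ h1).trans_eq ?_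
      rw [card_range, nsmul_eq_mul]
    have hB : ∀ z, |φ (app (blk (K + 1)) z)| ≤ (1 / 2) ^ (I + 1) / (u'.length + 1) := by
      intro z
      have := hN (app (blk (K + 1)) z) (fun _ => false) (fun k hk => by
        rw [app_blk_lt _ _ (by omega)])
      rwa [h0, sub_zero] at this
    refine ⟨u ++ blk K, u' ++ blk (K + 1), by simp [blk], by simp [blk],
      append_blk_last u K, append_blk_last u' (K + 1), ?_, ?_⟩
    · intro z
      rw [f_append_blk u K z hu1 hu2, f_append_blk u' (K + 1) z hu1' hu2']
      have e1 : f u'.length (app u' (app (blk (K + 1)) z)) =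
          f u'.length (app u' (app (blk K) z)) := by
        apply f_congr
        intro k hk
        rw [app_lt _ _ hk, app_lt _ _ hk]
      rw [e1, hf, if_pos (by omega : (K + 1) % 2 = 1), if_neg (by omega : ¬ K % 2 = 1)]
      push_cast
      ring
    · intro z
      rw [S_append, S_append]
      have e2 : S φ (blk (K + 1)).length (app (blk (K + 1)) z) =
          φ (app (blk (K + 1)) z) + S φ (blk K).length (app (blk K) z) := by
        rw [blk_succ, S_append, ← app_append]
        congr 1
        simp [S]
      rw [e2]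
      have hAz := hA z
      have hBz := hB z
      have hSz := hS (app (blk K) z)
      set a := S φ u'.length (app u' (app (blk (K + 1)) z))
      set b := S φ u'.length (app u' (app (blk K) z))
      set c := S φ u.length (app u (app (blk K) z))
      set d := S φ (blk K).length (app (blk K) z)
      set e := φ (app (blk (K + 1)) z)
      have h3 : |a + (e + d) - (c + d)| ≤ |a - b| + |b - c| + |e| := by
        rw [show a + (e + d) - (c + d) = (a - b) + (b - c) + e by ring]
        exact (abs_add_le _ _).trans (add_le_add_left (abs_add_le _ _) _)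
      have hL : (0 : ℝ) < (u'.length : ℝ) + 1 := by positivity
      have h4 : (u'.length : ℝ) * ((1 / 2) ^ (I + 1) / (u'.length + 1)) +
          (1 / 2) ^ (I + 1) / (u'.length + 1) = (1 / 2 : ℝ) ^ (I + 1) := by
        field_simp
      have h5 : (1 / 2 : ℝ) ^ I = (1 / 2) ^ (I + 1) + (1 / 2) ^ (I + 1) := by
        rw [pow_succ]; ring
      linarith

/-- `f` is not within bounded distance of Birkhoff sums of a continuous function -/
lemma no_approx (φ : (ℕ → Bool) → ℝ) (hφ : Continuous φ) (B : ℝ)
    (hB : ∀ n : ℕ, 1 ≤ n → ∀ x, |f n x - S φ n x| ≤ B) : False := by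
  -- uniform continuity
  have huc : ∀ ε : ℝ, 0 < ε → ∃ N : ℕ, ∀ x y : ℕ → Bool, (∀ k < N, x k = y k) →
      |φ x - φ y| ≤ ε := by
    intro ε hε
    let M : MetricSpace (ℕ → Bool) := PiNat.metricSpace (E := fun _ : ℕ => Bool)
    have h1 : @UniformContinuous (ℕ → Bool) ℝ M.toPseudoMetricSpace.toUniformSpace _ φ :=
      @CompactSpace.uniformContinuous_of_continuous (ℕ → Bool) ℝ
        M.toPseudoMetricSpace.toUniformSpace _ _ φ hφ
    obtain ⟨δ, hδ, h2⟩ := (@Metric.uniformContinuous_iff (ℕ → Bool) ℝ
      M.toPseudoMetricSpace _ φ).1 h1 ε hε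
    obtain ⟨N, hN⟩ := exists_pow_lt_of_lt_one hδ (show (1 / 2 : ℝ) < 1 by norm_num)
    refine ⟨N, fun x y hxy => ?_⟩
    have h3 : x ∈ PiNat.cylinder y N := by
      rw [PiNat.mem_cylinder_iff]; exact hxy
    have h4 : M.toDist.dist x y ≤ (1 / 2) ^ N := PiNat.mem_cylinder_iff_dist_le.1 h3
    have := h2 (lt_of_le_of_lt h4 hN)
    rw [Real.dist_eq] at this
    exact this.le
  -- value at the zero sequence
  have h0 : φ (fun _ => false) = 0 := by
    have hT : ∀ k, T^[k] (fun _ => false) = (fun _ => false) := by
      intro k; funext n; rw [T_iter]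
    have hf0 : ∀ n, f n (fun _ => false) = 0 := by
      intro n
      unfold f
      refine sum_eq_zero (fun j hj => sum_eq_zero (fun i _ => ?_))
      unfold g
      rw [if_neg]
      rintro ⟨_, h2, _⟩
      exact absurd h2 (by simp)
    by_contra hne
    have hpos : 0 < |φ (fun _ => false)| := abs_pos.2 hne
    obtain ⟨n, hn⟩ := exists_nat_gt (B / |φ (fun _ => false)|)
    have h1 := hB (n + 1) (by omega) (fun _ => false)
    rw [hf0] at h1
    unfold S at h1
    simp only [hT, sum_const, card_range, nsmul_eq_mul, zero_sub, abs_neg, abs_mul] at h1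
    rw [div_lt_iff₀ hpos] at hn
    rw [abs_of_nonneg (by positivity : (0 : ℝ) ≤ ((n + 1 : ℕ) : ℝ))] at h1
    push_cast at h1
    nlinarith
  obtain ⟨I, hI⟩ := exists_nat_gt (2 * B + 1)
  obtain ⟨u, u', hu1, hu1', -, -, hf, hS⟩ := key φ h0 huc I
  have e1 := hB u.length hu1 (app u (fun _ => false))
  have e2 := hB u'.length hu1' (app u' (fun _ => false))
  have e3 := hf (fun _ => false)
  have e4 := hS (fun _ => false)
  have e5 : (0 : ℝ) ≤ (1 / 2) ^ I := by positivity
  rw [abs_le] at e1 e2 e4
  linarith [e1.1, e1.2, e2.1, e2.2, e4.1, e4.2]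

end Pool.Agent.H98R3.AA
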